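import Mathlib

/-!
# Points of finitely generated rings in number fields, and their reductions
-/

set_option autoImplicit false

namespace Pool.Agent.U644.OP

open NumberField IsDedekindDomain

/-- A finitely generated domain of characteristic zero has a homomorphism to a number field which does not kill a given
nonzero element. -/
lemma exists_point (A : Type) [CommRing A] [IsDomain A] [CharZero A] (hA : Algebra.FiniteType ℤ A) (a : A)
    (ha : a ≠ 0) : ∃ (F : Type) (_ : Field F) (_ : NumberField F) (φ : A →+* F), φ a ≠ 0 := by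
  classical
  let K := FractionRing A
  have : CharZero K := charZero_of_injective_algebraMap (IsFractionRing.injective A K)
  obtain ⟨s, hs⟩ := hA.out
  let f : A →+* K := algebraMap A K
  have hf : Function.Injective f := IsFractionRing.injective A K
  let C : Subalgebra ℚ K := Algebra.adjoin ℚ (((s.image f) ∪ {(f a)⁻¹} : Finset K) : Set K)
  have hC : Algebra.FiniteType ℚ C := (Subalgebra.fg_iff_finiteType C).mp ⟨_, rfl⟩
  have hmem : ∀ x : A, f x ∈ C := by
    intro x
    have hx : x ∈ Algebra.adjoin ℤ (s : Set A) := by rw [hs]; exact Algebra.mem_top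
    refine Algebra.adjoin_induction (p := fun x _ => f x ∈ C) ?_ ?_ ?_ ?_ hx
    · intro y hy
      apply Algebra.subset_adjoin
      rw [Finset.coe_union]
      left
      exact Finset.mem_coe.mpr (Finset.mem_image_of_mem f hy)
    · intro r
      have : f (algebraMap ℤ A r) = (r : K) := by simp
      rw [this]
      exact intCast_mem C r
    · intro y z _ _ hy hz
      rw [map_add]; exact C.add_mem hy hz
    · intro y z _ _ hy hz
      rw [map_mul]; exact C.mul_mem hy hz
  have hinv : (f a)⁻¹ ∈ C := by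
    apply Algebra.subset_adjoin
    rw [Finset.coe_union]
    right
    simp
  obtain ⟨n, hn⟩ := Ideal.exists_maximal C
  let F := C ⧸ n
  let _ : Field F := Ideal.Quotient.field n
  have hfin : Algebra.FiniteType ℚ F :=
    Algebra.FiniteType.of_surjective (Ideal.Quotient.mkₐ ℚ n) (Ideal.Quotient.mkₐ_surjective ℚ n)
  have hfin2 : Module.Finite ℚ F := finite_of_finite_type_of_isJacobsonRing ℚ F
  have hchar : CharZero F := algebraRat.charZero F
  have hNF : NumberField F := by
    refine @NumberField.mk F _ hchar ?_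
    convert hfin2
    exact Subsingleton.elim _ _
  let φ : A →+* F := (Ideal.Quotient.mk n).comp (f.codRestrict C.toSubring hmem)
  refine ⟨F, inferInstance, hNF, φ, fun h => ?_⟩
  have h1 : (f.codRestrict C.toSubring hmem a : C) * (⟨(f a)⁻¹, hinv⟩ : C) = 1 := by
    apply Subtype.ext
    change f a * (f a)⁻¹ = 1
    exact mul_inv_cancel₀ (fun h0 => ha (hf (by rw [h0, map_zero])))
  have h2 := congrArg (Ideal.Quotient.mk n) h1
  rw [map_mul, map_one] at h2
  have h3 : (Ideal.Quotient.mk n) (f.codRestrict C.toSubring hmem a) = 0 := h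
  rw [h3, zero_mul] at h2
  exact zero_ne_one h2

variable {F : Type} [Field F] [NumberField F]

/-- The homomorphism `ψ : A → 𝓞/v` is the reduction of `φ : A → F` modulo `v`: if `φ a = x / s` with `s ∉ v` then
`ψ a = x / s`. -/
def IsRed {A : Type} [CommRing A] (φ : A →+* F) (v : HeightOneSpectrum (𝓞 F))
    (ψ : A →+* 𝓞 F ⧸ v.asIdeal) : Prop :=
  ∀ (a : A) (x s : 𝓞 F), s ∉ v.asIdeal → φ a * (s : F) = (x : F) →
    ψ a * Ideal.Quotient.mk v.asIdeal s = Ideal.Quotient.mk v.asIdeal x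

lemma finite_mem {x : 𝓞 F} (hx : x ≠ 0) : {v : HeightOneSpectrum (𝓞 F) | x ∈ v.asIdeal}.Finite := by
  have h := Ideal.finite_factors (I := Ideal.span {x}) (by simpa using hx)
  refine h.subset fun v hv => ?_
  simp only [Set.mem_ofPred_eq] at hv ⊢
  rw [Ideal.dvd_span_singleton]
  exact hv

lemma exists_denom (y : F) : ∃ d x : 𝓞 F, d ≠ 0 ∧ y * (d : F) = (x : F) := by
  obtain ⟨⟨x, d⟩, h⟩ := IsLocalization.surj (nonZeroDivisors (𝓞 F)) y
  exact ⟨d, x, nonZeroDivisors.coe_ne_zero d, h⟩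

/-- the reduction modulo almost all places -/
lemma exists_red {A : Type} [CommRing A] (hA : Algebra.FiniteType ℤ A) (φ : A →+* F) :
    ∃ S : Set (HeightOneSpectrum (𝓞 F)), S.Finite ∧ ∀ v ∉ S, ∃ ψ : A →+* 𝓞 F ⧸ v.asIdeal, IsRed φ v ψ := by
  classical
  obtain ⟨s, hs⟩ := hA.out
  choose d x hd hx using fun y : F => exists_denom y
  let D : 𝓞 F := ∏ y ∈ s, d (φ y)
  have hD : D ≠ 0 := Finset.prod_ne_zero_iff.mpr fun y _ => hd _
  refine ⟨{v | D ∈ v.asIdeal}, finite_mem hD, fun v hv => ?_⟩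
  simp only [Set.mem_ofPred_eq] at hv
  have hprime : v.asIdeal.IsPrime := v.isPrime
  have hmax : v.asIdeal.IsMaximal := v.isMaximal
  let L := Localization.AtPrime v.asIdeal
  have hu : ∀ y : v.asIdeal.primeCompl, IsUnit (algebraMap (𝓞 F) F y) := by
    intro y
    apply IsUnit.mk0
    intro h0
    have : (y : 𝓞 F) = 0 := by
      apply (FaithfulSMul.algebraMap_injective (𝓞 F) F)
      rw [h0, map_zero]
    exact y.2 (by rw [this]; exact v.asIdeal.zero_mem)
  let ι : L →+* F := IsLocalization.lift (M := v.asIdeal.primeCompl) hu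
  have hι : ∀ y : 𝓞 F, ι (algebraMap (𝓞 F) L y) = (y : F) := fun y => IsLocalization.lift_eq hu y
  have hιinj : Function.Injective ι := by
    refine (IsLocalization.lift_injective_iff hu).mpr fun y z => ?_
    constructor
    · intro h
      have h1 : ι (algebraMap (𝓞 F) L y) = ι (algebraMap (𝓞 F) L z) := by rw [h]
      rw [hι, hι] at h1
      exact h1
    · intro h
      have : y = z := (FaithfulSMul.algebraMap_injective (𝓞 F) F) h
      rw [this]
  let _ : Field (𝓞 F ⧸ v.asIdeal) := Ideal.Quotient.field v.asIdeal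
  have hu2 : ∀ y : v.asIdeal.primeCompl, IsUnit (Ideal.Quotient.mk v.asIdeal y) := by
    intro y
    apply IsUnit.mk0
    intro h0
    exact y.2 (Ideal.Quotient.eq_zero_iff_mem.mp h0)
  let π : L →+* 𝓞 F ⧸ v.asIdeal := IsLocalization.lift (M := v.asIdeal.primeCompl) hu2
  have hπ : ∀ y : 𝓞 F, π (algebraMap (𝓞 F) L y) = Ideal.Quotient.mk v.asIdeal y :=
    fun y => IsLocalization.lift_eq hu2 y
  have hmem : ∀ a : A, φ a ∈ ι.range := by
    intro a
    have ha : a ∈ Algebra.adjoin ℤ (s : Set A) := by rw [hs]; exact Algebra.mem_top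
    refine Algebra.adjoin_induction (p := fun a _ => φ a ∈ ι.range) ?_ ?_ ?_ ?_ ha
    · intro y hy
      have hdy : d (φ y) ∉ v.asIdeal := by
        intro h
        apply hv
        exact Ideal.mem_of_dvd _ (Finset.dvd_prod_of_mem (fun y => d (φ y)) hy) h
      refine ⟨IsLocalization.mk' L (x (φ y)) (⟨d (φ y), hdy⟩ : v.asIdeal.primeCompl), ?_⟩
      have h1 : ι (IsLocalization.mk' L (x (φ y)) (⟨d (φ y), hdy⟩ : v.asIdeal.primeCompl)) *
          ι (algebraMap (𝓞 F) L (d (φ y))) = ι (algebraMap (𝓞 F) L (x (φ y))) := by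
        rw [← map_mul]
        congr 1
        exact IsLocalization.mk'_spec L (x (φ y)) (⟨d (φ y), hdy⟩ : v.asIdeal.primeCompl)
      rw [hι, hι, ← hx (φ y)] at h1
      have h0 : ((d (φ y) : 𝓞 F) : F) ≠ 0 := by
        intro h
        exact hd (φ y) (by
          apply (FaithfulSMul.algebraMap_injective (𝓞 F) F)
          rw [map_zero]; exact h)
      exact mul_right_cancel₀ h0 h1
    · intro r
      have : φ (algebraMap ℤ A r) = (r : F) := by simp
      rw [this]
      exact ⟨(r : L), map_intCast ι r⟩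
    · intro y z _ _ hy hz
      rw [map_add]; exact add_mem hy hz
    · intro y z _ _ hy hz
      rw [map_mul]; exact mul_mem hy hz
  let e : L ≃+* ι.range := RingEquiv.ofBijective ι.rangeRestrict
    ⟨fun y z h => hιinj (congrArg Subtype.val h), ι.rangeRestrict_surjective⟩
  let ψ : A →+* 𝓞 F ⧸ v.asIdeal := (π.comp e.symm.toRingHom).comp (φ.codRestrict ι.range hmem)
  refine ⟨ψ, fun a y t ht h => ?_⟩
  set z : L := e.symm (φ.codRestrict ι.range hmem a) with hz
  have h1 : ι z = φ a := by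
    have h2 : e z = φ.codRestrict ι.range hmem a := e.apply_symm_apply _
    exact congrArg Subtype.val h2
  have h3 : z * algebraMap (𝓞 F) L t = algebraMap (𝓞 F) L y := by
    apply hιinj
    rw [map_mul, hι, hι, h1, h]
  have h4 := congrArg π h3
  rw [map_mul, hπ, hπ] at h4
  exact h4

/-- the kernel of the reduction is a maximal ideal -/
lemma ker_isMaximal {A : Type} [CommRing A] (v : HeightOneSpectrum (𝓞 F)) (ψ : A →+* 𝓞 F ⧸ v.asIdeal) :
    (RingHom.ker ψ).IsMaximal := by
  have hmax : v.asIdeal.IsMaximal := v.isMaximal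
  have hprime : v.asIdeal.IsPrime := v.isPrime
  have h1 : Finite (𝓞 F ⧸ v.asIdeal) := Ideal.finiteQuotientOfFreeOfNeBot v.asIdeal v.ne_bot
  have h2 : IsDomain (𝓞 F ⧸ v.asIdeal) := inferInstance
  have h3 : Finite ψ.range := inferInstance
  have h4 : IsField ψ.range := Finite.isField_of_domain ψ.range
  have e := RingHom.quotientKerEquivRange ψ
  exact Ideal.Quotient.maximal_of_isField _ (e.toMulEquiv.isField h4)

/-- elements which are not killed by `φ` are not killed by almost all reductions -/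
lemma red_ne_zero {A : Type} [CommRing A] (φ : A →+* F) {a : A} (ha : φ a ≠ 0) :
    ∃ S : Set (HeightOneSpectrum (𝓞 F)), S.Finite ∧ ∀ v ∉ S, ∀ ψ : A →+* 𝓞 F ⧸ v.asIdeal, IsRed φ v ψ →
      a ∉ RingHom.ker ψ := by
  obtain ⟨d, x, hd, hx⟩ := exists_denom (φ a)
  have hx0 : x ≠ 0 := by
    rintro rfl
    have h0 : ((d : 𝓞 F) : F) ≠ 0 := by
      intro h
      exact hd (by
        apply (FaithfulSMul.algebraMap_injective (𝓞 F) F)
        rw [map_zero]; exact h)
    exact mul_ne_zero ha h0 (by simpa using hx)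
  refine ⟨{v | d * x ∈ v.asIdeal}, finite_mem (mul_ne_zero hd hx0), fun v hv ψ hψ h => ?_⟩
  simp only [Set.mem_ofPred_eq] at hv
  have h1 : d ∉ v.asIdeal := fun h => hv (v.asIdeal.mul_mem_right x h)
  have h2 : x ∉ v.asIdeal := fun h => hv (v.asIdeal.mul_mem_left d h)
  have h3 := hψ a x d h1 hx
  rw [(RingHom.mem_ker).mp h, zero_mul] at h3
  exact h2 (Ideal.Quotient.eq_zero_iff_mem.mp h3.symm)

/-- every prime number has a place above it -/
lemma exists_above (F : Type) [Field F] [NumberField F] {p : ℕ} (hp : p.Prime) :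
    ∃ v : HeightOneSpectrum (𝓞 F), (p : 𝓞 F) ∈ v.asIdeal := by
  have h1 : ¬ IsUnit ((p : ℕ) : 𝓞 F) := by
    intro h
    have h2 : IsUnit ((p : ℤ)) := by
      have h3 : IsIntegral ℤ (((p : ℚ))⁻¹) := by
        obtain ⟨u, hu⟩ := h
        have h4 : ((u⁻¹ : (𝓞 F)ˣ) : 𝓞 F) * (p : 𝓞 F) = 1 := by rw [← hu]; simp
        have h5 : (((u⁻¹ : (𝓞 F)ˣ) : 𝓞 F) : F) = algebraMap ℚ F ((p : ℚ)⁻¹) := by
          have h6 : (((u⁻¹ : (𝓞 F)ˣ) : 𝓞 F) : F) * (p : F) = 1 := by
            have := congrArg (algebraMap (𝓞 F) F) h4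
            simpa using this
          have hp0 : (p : F) ≠ 0 := Nat.cast_ne_zero.mpr hp.ne_zero
          rw [map_inv₀, map_natCast]
          exact eq_inv_of_mul_eq_one_left h6
        have h7 : IsIntegral ℤ (algebraMap ℚ F ((p : ℚ)⁻¹)) := by
          rw [← h5]; exact RingOfIntegers.isIntegral_coe _
        exact (isIntegral_algebraMap_iff (algebraMap ℚ F).injective).mp h7
      obtain ⟨z, hz⟩ := IsIntegrallyClosed.isIntegral_iff.mp h3
      have hp0 : (p : ℚ) ≠ 0 := Nat.cast_ne_zero.mpr hp.ne_zero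
      have h8 : (p : ℤ) * z = 1 := by
        have : ((p : ℤ) : ℚ) * (z : ℚ) = 1 := by
          have hz' : (z : ℚ) = (p : ℚ)⁻¹ := by simpa using hz
          rw [hz']
          push_cast
          exact mul_inv_cancel₀ hp0
        exact_mod_cast this
      exact IsUnit.of_mul_eq_one z h8
    rw [Int.isUnit_iff_natAbs_eq] at h2
    simp only [Int.natAbs_natCast] at h2
    exact hp.one_lt.ne' h2
  obtain ⟨m, hm, hpm⟩ := exists_max_ideal_of_mem_nonunits (mem_nonunits_iff.mpr h1)
  have hne : m ≠ ⊥ := by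
    rintro rfl
    rw [Ideal.mem_bot] at hpm
    exact hp.ne_zero (by exact_mod_cast hpm)
  exact ⟨⟨m, hm.isPrime, hne⟩, hpm⟩

/-- a place is above one prime number only -/
lemma above_unique (v : HeightOneSpectrum (𝓞 F)) {p q : ℕ} (hp : p.Prime) (hq : q.Prime)
    (h1 : (p : 𝓞 F) ∈ v.asIdeal) (h2 : (q : 𝓞 F) ∈ v.asIdeal) : p = q := by
  by_contra hne
  have hc : IsCoprime (p : ℤ) (q : ℤ) := Nat.isCoprime_iff_coprime.mpr ((Nat.coprime_primes hp hq).mpr hne)
  obtain ⟨a, b, hab⟩ := hc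
  have h3 : ((a : 𝓞 F) * (p : 𝓞 F) + (b : 𝓞 F) * (q : 𝓞 F)) = 1 := by exact_mod_cast congrArg (Int.cast : ℤ → 𝓞 F) hab
  apply v.isPrime.ne_top
  rw [Ideal.eq_top_iff_one, ← h3]
  exact v.asIdeal.add_mem (v.asIdeal.mul_mem_left _ h1) (v.asIdeal.mul_mem_left _ h2)

lemma finite_below {S : Set (HeightOneSpectrum (𝓞 F))} (hS : S.Finite) :
    {p : ℕ | p.Prime ∧ ∃ v ∈ S, (p : 𝓞 F) ∈ v.asIdeal}.Finite := by
  have : {p : ℕ | p.Prime ∧ ∃ v ∈ S, (p : 𝓞 F) ∈ v.asIdeal} ⊆
      ⋃ v ∈ S, {p : ℕ | p.Prime ∧ (p : 𝓞 F) ∈ v.asIdeal} := by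
    rintro p ⟨hp, v, hv, h⟩
    exact Set.mem_biUnion hv ⟨hp, h⟩
  refine (hS.biUnion fun v _ => ?_).subset this
  apply Set.Subsingleton.finite
  rintro p ⟨hp, h1⟩ q ⟨hq, h2⟩
  exact above_unique v hp hq h1 h2

end Pool.Agent.U644.OP
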